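import Pool.Agent.Helper76.GP.MA
import Pool.Agent.Helper22.SC.K14

/-! # GP / FC: countable sets are null -/

universe u

namespace Pool.Agent.Helper28.GP

open ZFSet MeasureTheory Pool.Agent.Helper66.SC Pool.Agent.Helper22.SC Pool.Agent.Helper66.GP
open Pool.Agent.Helper76.GP

/-- The iterated successor. -/
noncomputable def FC_it : ℕ → ZFSet.{u} → ZFSet.{u}
  | 0, x => x
  | m + 1, x => insert (FC_it m x) (FC_it m x)

theorem FC_it_nz (m i : ℕ) : FC_it.{u} m (nz i) = nz (i + m) := by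
  induction m with
  | zero => rfl
  | succ m ih =>
    show insert (FC_it.{u} m (nz i)) (FC_it m (nz i)) = nz (i + (m + 1))
    rw [ih]
    ext k
    rw [ZFSet.mem_insert_iff, mem_nz, mem_nz]
    constructor
    · rintro (rfl | ⟨j, hj, rfl⟩)
      · exact ⟨i + m, by omega, rfl⟩
      · exact ⟨j, by omega, rfl⟩
    · rintro ⟨j, hj, rfl⟩
      by_cases h : j = i + m
      · left
        rw [h]
      · right
        exact ⟨j, by omega, rfl⟩

section

variable {α : Type (u + 1)} [Ctx.{u} α] {C : Cls.{u}}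

theorem FC_U_it [ZCls C] {f : Set ZFSet.{u} → Set ZFSet.{u} → α → ZFSet.{u}}
    (hf : U C f) (m : ℕ) : U C (fun N A a => FC_it m (f N A a)) := by
  induction m with
  | zero => exact hf
  | succ m ih => exact U.insert ih ih

end

theorem FC_coin_cyl (n : ℕ) (t : ZFSet.{u}) : coin (cyl n t) ≤ (2⁻¹ : ENNReal) ^ n := by
  rcases Set.eq_empty_or_nonempty (cyl n t) with h | ⟨x₀, hx₀⟩
  · rw [h, measure_empty]
    exact zero_le
  · have h1 : cyl n t ⊆ Set.pi (Finset.range n) (fun i => ({x₀ i} : Set Bool)) := by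
      intro x hx i hi
      have h2 : (rl x ∩ nz n : ZFSet.{u}) = rl x₀ ∩ nz n := by
        have e1 : (rl x ∩ nz n : ZFSet.{u}) = t := hx
        have e2 : (rl x₀ ∩ nz n : ZFSet.{u}) = t := hx₀
        rw [e1, e2]
      exact rl_eq.1 h2 i (Finset.mem_range.1 hi)
    refine (measure_mono h1).trans ?_
    unfold coin
    rw [Measure.infinitePi_pi (μ := fun _ : ℕ => (PMF.uniformOfFintype Bool).toMeasure)
      (fun i _ => measurableSet_singleton _)]
    rw [Finset.prod_congr rfl (g := fun _ => (2⁻¹ : ENNReal)) (fun i _ => by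
      rw [PMF.toMeasure_apply_singleton _ _ (measurableSet_singleton _)]
      simp)]
    simp

theorem st_FC : ST_FC.{u} := by
  intro W a hW ha hc ε hε
  obtain ⟨f, hf, hgr, hmap, hinj⟩ := cardLe_iff.1 hc
  obtain ⟨m₀, hm₀⟩ := ENNReal.exists_inv_two_pow_lt hε.ne'
  set m := m₀ + 1 with hm
  have hU := (show U KZ (fun N _ (p : ZFSet.{u} × ZFSet.{u}) =>
      Helper66.SC.img (ZFSet.sep (fun y => y ⊆ ZFSet.omega) p.1)
        (fun y => pair (FC_it m (Helper22.SC.app p.2 y)) (y ∩ FC_it m (Helper22.SC.app p.2 y)))) by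
    refine U.img ?_ ?_
    · apply_rules (transparency := .reducible) (maxDepth := 400) using is_poly
    · have h1 : U KZ (fun N _ (p : (ZFSet.{u} × ZFSet.{u}) × ZFSet.{u}) =>
          FC_it m (Helper22.SC.app p.1.2 p.2)) := by
        refine FC_U_it ?_ m
        apply_rules (transparency := .reducible) (maxDepth := 400) using is_poly
      refine U.pair h1 (U.inter ?_ h1)
      apply_rules (transparency := .reducible) (maxDepth := 400) using is_poly).closed hW
    (a := (a, f)) (by simp [ha, hf])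
  set b := Helper66.SC.img (ZFSet.sep (fun y => y ⊆ ZFSet.omega) a)
        (fun y => pair (FC_it m (Helper22.SC.app f y)) (y ∩ FC_it m (Helper22.SC.app f y))) with hb
  have hbW : b ∈ W := by simpa using hU
  have happ : ∀ y ∈ a, ∃ i : ℕ, Helper22.SC.app f y = nz i := fun y hy => mem_omega_iff'.1 (hmap y hy)
  have hmem : ∀ s, s ∈ b ↔ ∃ y ∈ a, y ⊆ ZFSet.omega ∧ ∃ i : ℕ, Helper22.SC.app f y = nz i ∧
      s = pair (nz (i + m)) (y ∩ nz (i + m)) := by
    intro s
    rw [hb, mem_img]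
    constructor
    · rintro ⟨y, hy, rfl⟩
      obtain ⟨hya, hyo⟩ := ZFSet.mem_sep.1 hy
      obtain ⟨i, hi⟩ := happ y hya
      refine ⟨y, hya, hyo, i, hi, ?_⟩
      rw [hi, FC_it_nz]
    · rintro ⟨y, hya, hyo, i, hi, rfl⟩
      refine ⟨y, ZFSet.mem_sep.2 ⟨hya, hyo⟩, ?_⟩
      rw [hi, FC_it_nz]
  refine ⟨b, hbW, ?_, ?_, ?_⟩
  · intro s hs
    obtain ⟨y, _, _, i, _, rfl⟩ := (hmem s).1 hs
    exact mem_Str.2 ⟨i + m, y ∩ nz (i + m), inter_r, rfl⟩
  · have hcov : US b ⊆ ⋃ i : ℕ, {x : ℕ → Bool | ∃ y ∈ a, Helper22.SC.app f y = nz i ∧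
        x ∈ cyl (i + m) (y ∩ nz (i + m))} := by
      rintro x ⟨n, hn⟩
      obtain ⟨y, hya, _, i, hi, he⟩ := (hmem _).1 hn
      obtain ⟨h1, h2⟩ := ZFSet.pair_inj.1 he
      have hnn : n = i + m := nzi.1 h1
      subst hnn
      exact Set.mem_iUnion.2 ⟨i, y, hya, hi, h2⟩
    have hpiece : ∀ i : ℕ, coin {x : ℕ → Bool | ∃ y ∈ a, Helper22.SC.app f y = nz i ∧
        x ∈ cyl (i + m) (y ∩ nz (i + m))} ≤ (2⁻¹ : ENNReal) ^ (i + m) := by
      intro i
      by_cases h : ∃ y ∈ a, Helper22.SC.app f y = nz i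
      · obtain ⟨y, hya, hi⟩ := h
        refine le_trans (measure_mono ?_) (FC_coin_cyl (i + m) (y ∩ nz (i + m)))
        rintro x ⟨y', hya', hi', hx⟩
        have : y' = y := hinj y' hya' y hya (hi'.trans hi.symm)
        rwa [this] at hx
      · have : {x : ℕ → Bool | ∃ y ∈ a, Helper22.SC.app f y = nz i ∧
            x ∈ cyl (i + m) (y ∩ nz (i + m))} = ∅ := by
          rw [Set.eq_empty_iff_forall_notMem]
          rintro x ⟨y, hya, hi, _⟩
          exact h ⟨y, hya, hi⟩
        rw [this, measure_empty]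
        exact zero_le
    refine lt_of_le_of_lt ((measure_mono hcov).trans ((measure_iUnion_le _).trans
      (ENNReal.tsum_le_tsum hpiece))) ?_
    have hsum : ∑' i : ℕ, (2⁻¹ : ENNReal) ^ (i + m) = (2⁻¹ : ENNReal) ^ m₀ := by
      simp only [pow_add]
      rw [ENNReal.tsum_mul_right, ENNReal.tsum_geometric, ENNReal.one_sub_inv_two, inv_inv, hm,
        pow_succ, mul_comm, mul_assoc, ENNReal.inv_mul_cancel two_ne_zero ENNReal.ofNat_ne_top,
        mul_one]
    rw [hsum]
    exact hm₀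
  · intro y hy hyo
    obtain ⟨i, hi⟩ := happ y hy
    exact ⟨i + m, (hmem _).2 ⟨y, hy, hyo, i, hi, rfl⟩⟩

end Pool.Agent.Helper28.GP
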